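import Pool.Agent.Lib.MP_2fd4e2_co.Gen.Final

/-!
Isosceles trapezoids inscribed in a locally Lipschitz arc closed up by an arbitrary path.

`T` is the isosceles trapezoid with vertices `0`, `1`, `1 + l e^(i φ)`, `-l e^(-i φ)`: its bases
are `1` and `1 + 2 l cos φ`, so that every isosceles trapezoid and every rectangle occurs, with
either base as the side `0 1`. The arc `G` from `P` to `Q` is simple; near each of its points it is
the graph of a Lipschitz function with the constant `A`, in orthogonal coordinates depending on the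
point, `2 arctan A < φ` and `2 arctan A < π - φ` (any `A > 0` will do for a regular arc of class
`C^1`); it has one-sided tangents at `P` and `Q`. The path `g` leads from `P` to `Q` and is
arbitrary, except that

* it does not meet `G` except at `P` and `Q`;
* the two curves described by the free end of the leg of `T` at `P` (at `Q`), when the other
  vertex of the side `0 1` of `T` runs through `G`, meet `G` and `g` in `P` (in `Q`) only;
* near `P` and near `Q` it stays in a closed sector between the tangent of `G` and the line at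
  the angle `π - φ` to it, narrow enough to contain no chord parallel to the tangent that has the
  proportion base to height of `T`.

Then `T` is inscribed in the closed curve made of `G` and `g`, with its side `0 1` on `G`.

Proof. There is a continuous `h` which vanishes exactly on `J = G ∪ g` and whose sign near each
point of `G` is negative to the left and positive to the right of `G`. To find it, send a point of
`G` to infinity by an inversion and straighten a piece of `G` around it: the rest of `J` becomes a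
bounded path between the ends of two rays of a line, and crossing numbers of polygons separate the
points far above the line from the points far below it in the complement of `J`; the union of the
components that contain points close to `G` on its left is then disjoint from the one for its
right, by connectedness of `G`. For points `z1`, `z2` of `G`, in this order, let `z3`, `z4` be the
other vertices of the similar copy of `T` with side `z1 z2`. Then `h(z3)` and `h(z4)` are negative
when `z1`, `z2` are close to each other; `h(z4) > 0` when `z1 = P` and `h(z3) > 0` when `z2 = Q`,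
as on these sides of the triangle of pairs they have no zeros and the signs near the corners are
known; and near the corners `P = z1 = z2`, `Q = z1 = z2` it is impossible that `h(z4) ≤ 0 ≤ h(z3)`
(`h(z3) ≤ 0 ≤ h(z4)`), because of the sectors. By a form of the Poincare-Miranda theorem both
vanish for some `z1 ≠ z2`.
-/

set_option autoImplicit false

namespace Pool.Agent.Results.MP_2fd4e2_co.ArbitraryClosure

open Complex Set Filter Topology

theorem result (φ l : ℝ) (hφ : 0 < φ) (hφ' : φ < Real.pi) (hl : 0 < l)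
    (hl' : 0 < 1 + 2 * l * Real.cos φ) (A : ℝ) (hA0 : 0 ≤ A) (hA1 : 2 * Real.arctan A < φ)
    (hA2 : 2 * Real.arctan A < Real.pi - φ)
    (G : ℝ → ℂ) (hG : ContinuousOn G (Icc 0 1)) (hinj : InjOn G (Icc 0 1))
    (hloc : ∀ t₀ ∈ Icc (0 : ℝ) 1, ∃ e : ℂ, e ≠ 0 ∧ ∃ ε > 0, ∀ t ∈ Icc (0 : ℝ) 1,
      ∀ u ∈ Icc (0 : ℝ) 1, |t - t₀| < ε → |u - t₀| < ε → t < u →
      0 < ((G u - G t) / e).re ∧ |((G u - G t) / e).im| ≤ A * ((G u - G t) / e).re)
    (m n : ℂ) (hm0 : m ≠ 0) (hn0 : n ≠ 0) (hm : HasDerivWithinAt G m (Icc 0 1) 0)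
    (hn : HasDerivWithinAt G n (Icc 0 1) 1)
    (g : ℝ → ℂ) (hg : ContinuousOn g (Icc 0 1)) (h0 : g 0 = G 0) (h1 : g 1 = G 1)
    (hav : ∀ s ∈ Ioo (0 : ℝ) 1, ∀ t ∈ Icc (0 : ℝ) 1, g s ≠ G t)
    (hlegP : ∀ t ∈ Ioc (0 : ℝ) 1,
      G 0 - l * exp (-(φ * I)) * (G t - G 0) ∉ G '' Icc 0 1 ∪ g '' Icc 0 1)
    (hlegQ : ∀ t ∈ Ico (0 : ℝ) 1,
      G 1 - l * exp (φ * I) * (G t - G 1) ∉ G '' Icc 0 1 ∪ g '' Icc 0 1)
    (α₁ α₂ β₁ β₂ : ℝ) (hα₁ : 0 < α₁) (hα₂ : α₂ < Real.pi - φ)
    (hα : Real.cot α₁ - Real.cot α₂ < (1 + 2 * l * Real.cos φ) / (l * Real.sin φ))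
    (hβ₁ : 0 < β₁) (hβ₂ : β₂ < Real.pi - φ)
    (hβ : Real.cot β₁ - Real.cot β₂ < (1 + 2 * l * Real.cos φ) / (l * Real.sin φ))
    (hP : ∀ᶠ s in 𝓝[>] (0 : ℝ), ∃ ρ : ℝ, 0 < ρ ∧ ∃ x ∈ Icc α₁ α₂,
      g s = G 0 + ρ * exp (x * I) * m)
    (hQ : ∀ᶠ s in 𝓝[<] (1 : ℝ), ∃ ρ : ℝ, 0 < ρ ∧ ∃ x ∈ Icc β₁ β₂,
      g s = G 1 - ρ * exp (-(x * I)) * n) :
    ∃ α β : ℂ, α ≠ 0 ∧ β ∈ G '' Icc 0 1 ∧ α + β ∈ G '' Icc 0 1 ∧
      α * (1 + l * exp (φ * I)) + β ∈ G '' Icc 0 1 ∪ g '' Icc 0 1 ∧
      α * (-(l * exp (-(φ * I)))) + β ∈ G '' Icc 0 1 ∪ g '' Icc 0 1 :=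
  Pool.Agent.GenTrap.inscribed_general φ l hφ hφ' hl hl' A hA0 hA1 hA2 G hG hinj hloc m n hm0 hn0
    hm hn g hg h0 h1 hav hlegP hlegQ α₁ α₂ β₁ β₂ hα₁ hα₂ hα hβ₁ hβ₂ hβ hP hQ

end Pool.Agent.Results.MP_2fd4e2_co.ArbitraryClosure
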